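import Mathlib

/-!
Convex bodies given by support functions, their orthogonal projections, and completely symmetric
planar sets.
-/

set_option autoImplicit false
set_option linter.unusedSectionVars false

open MeasureTheory Set Metric
open scoped RealInnerProductSpace

namespace Pool.Agent.R758.Tomo

section defs

variable {V : Type*} [NormedAddCommGroup V] [InnerProductSpace ℝ V]

/-- A convex body: a compact convex set with nonempty interior. -/
def IsConvexBody (K : Set V) : Prop := IsCompact K ∧ Convex ℝ K ∧ (interior K).Nonempty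

/-- A Euclidean ball (of positive radius, with an arbitrary centre). -/
def IsBall (K : Set V) : Prop := ∃ (c : V) (r : ℝ), 0 < r ∧ K = closedBall c r

/-- An ellipsoid: the image of the closed unit ball under an invertible affine map. -/
def IsEllipsoid (K : Set V) : Prop :=
  ∃ (T : V ≃L[ℝ] V) (c : V), K = (fun x => T x + c) '' closedBall 0 1

/-- The symmetry group of `A`: the isometries of the whole space which map `A` onto itself. -/
def Sym (A : Set V) : Set (V ≃ᵢ V) := {T | T '' A = A}

/-- A set `G` of isometries is complete if every ellipsoid whose symmetry group contains `G` is a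
Euclidean ball. -/
def IsCompleteGroup (G : Set (V ≃ᵢ V)) : Prop :=
  ∀ E : Set V, IsEllipsoid E → G ⊆ Sym E → IsBall E

/-- The centroid of `A`: the average over `A` of the identity, for Lebesgue measure. -/
noncomputable def centroid [MeasurableSpace V] [BorelSpace V] [FiniteDimensional ℝ V]
    (A : Set V) : V := ⨍ x in A, x

/-- A set is completely symmetric if its centroid is the origin and its symmetry group is
complete. -/
def CompletelySymmetric [MeasurableSpace V] [BorelSpace V] [FiniteDimensional ℝ V]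
    (A : Set V) : Prop := centroid A = 0 ∧ IsCompleteGroup (Sym A)

/-- The orthogonal projection of `K` onto the hyperplane orthogonal to `u`, as a subset of that
hyperplane (with its Euclidean structure). -/
noncomputable def shadow (u : V) (K : Set V) : Set ((ℝ ∙ u)ᗮ : Submodule ℝ V) :=
  (ℝ ∙ u)ᗮ.orthogonalProjectionOnto '' K

end defs

section support

variable {V : Type*} [NormedAddCommGroup V] [InnerProductSpace ℝ V] [FiniteDimensional ℝ V]

/-- The set with support function at most `h`. -/
def body (h : V → ℝ) : Set V := {y | ∀ x, ⟪y, x⟫ ≤ h x}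

theorem body_closed (h : V → ℝ) : IsClosed (body h) := by
  have : body h = ⋂ x, {y | ⟪y, x⟫ ≤ h x} := by
    ext y; simp [body]
  rw [this]
  exact isClosed_iInter fun x => isClosed_le (by fun_prop) continuous_const

theorem body_convex (h : V → ℝ) : Convex ℝ (body h) := by
  intro y hy z hz a b ha hb hab x
  rw [inner_add_left, inner_smul_left, inner_smul_left]
  simp only [conj_trivial]
  have h1 := hy x
  have h2 := hz x
  calc a * ⟪y, x⟫ + b * ⟪z, x⟫ ≤ a * h x + b * h x := by gcongr
    _ = h x := by rw [← add_mul, hab, one_mul]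

theorem body_isConvexBody {h : V → ℝ} {m M : ℝ} (hm : 0 < m) (h1 : ∀ x, m * ‖x‖ ≤ h x)
    (h2 : ∀ x, h x ≤ M * ‖x‖) : IsConvexBody (body h) := by
  refine ⟨?_, body_convex h, ?_⟩
  · apply isCompact_of_isClosed_isBounded (body_closed h)
    rw [isBounded_iff_forall_norm_le]
    refine ⟨|M|, fun y hy => ?_⟩
    by_cases hy0 : y = 0
    · rw [hy0, norm_zero]
      exact abs_nonneg M
    · have h3 := (hy y).trans (h2 y)
      rw [real_inner_self_eq_norm_sq] at h3
      have := norm_pos_iff.2 hy0
      have h4 : ‖y‖ ≤ M := by nlinarith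
      exact h4.trans (le_abs_self M)
  · refine ⟨0, ?_⟩
    rw [mem_interior_iff_mem_nhds]
    refine Filter.mem_of_superset (closedBall_mem_nhds 0 hm) ?_
    intro y hy x
    rw [mem_closedBall_zero_iff] at hy
    calc ⟪y, x⟫ ≤ ‖y‖ * ‖x‖ := real_inner_le_norm _ _
      _ ≤ m * ‖x‖ := by gcongr
      _ ≤ h x := h1 x

/-- A set one of whose translates is a convex body is a convex body. -/
theorem isConvexBody_of_translate {A : Set V} {v : V}
    (h : IsConvexBody ((fun x => x + v) '' A)) : IsConvexBody A := by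
  obtain ⟨h1, h2, h3⟩ := h
  let e : V ≃ₜ V := Homeomorph.addRight v
  have he : (fun x => x + v) '' A = e '' A := rfl
  rw [he] at h1 h2 h3
  refine ⟨e.isCompact_image.1 h1, ?_, ?_⟩
  · intro x hx y hy a b ha hb hab
    have h4 := h2 (mem_image_of_mem e hx) (mem_image_of_mem e hy) ha hb hab
    have h5 : a • e x + b • e y = e (a • x + b • y) := by
      change a • (x + v) + b • (y + v) = a • x + b • y + v
      have : v = a • v + b • v := by rw [← add_smul, hab, one_smul]
      conv_rhs => rw [this]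
      rw [smul_add, smul_add]
      abel
    rw [h5] at h4
    obtain ⟨z, hz, hze⟩ := h4
    rwa [← e.injective hze]
  · rw [← e.image_interior] at h3
    exact h3.of_image

/-- The projection of a body given by its support function. -/
theorem proj_body {h : V → ℝ} (hK : IsCompact (body h)) (hs : ∀ x, ∃ y ∈ body h, ⟪y, x⟫ = h x)
    (H : Submodule ℝ V) :
    H.orthogonalProjectionOnto '' body h = body (fun x : H => h (x : V)) := by
  ext y
  constructor
  · rintro ⟨z, hz, rfl⟩ x
    have := hz (x : V)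
    rw [Submodule.inner_orthogonalProjectionOnto_eq_of_mem_right]
    exact this
  · intro hy
    by_contra hcon
    have hc : Convex ℝ (H.orthogonalProjectionOnto '' body h) :=
      (body_convex h).linear_image H.orthogonalProjectionOnto.toLinearMap
    have hcl : IsClosed (H.orthogonalProjectionOnto '' body h) :=
      (hK.image H.orthogonalProjectionOnto.continuous).isClosed
    obtain ⟨f, c, h1, h2⟩ := geometric_hahn_banach_closed_point hc hcl hcon
    obtain ⟨x, hx⟩ := (InnerProductSpace.toDual ℝ H).surjective f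
    obtain ⟨z, hz, hzx⟩ := hs (x : V)
    have h3 := h1 _ (mem_image_of_mem _ hz)
    rw [← hx, InnerProductSpace.toDual_apply_apply] at h2 h3
    have h4 := hy x
    rw [real_inner_comm] at h2 h3
    have h5 : ⟪H.orthogonalProjectionOnto z, x⟫ = ⟪z, (x : V)⟫ := by
      rw [Submodule.inner_orthogonalProjectionOnto_eq_of_mem_right]
    linarith

/-- If the body given by `h` is a ball, then `h` is the support function of that ball. -/
theorem support_ball {h : V → ℝ} (hs : ∀ x, ∃ y ∈ body h, ⟪y, x⟫ = h x) {c : V} {r : ℝ}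
    (hr : 0 < r) (hb : body h = closedBall c r) (x : V) : h x = ⟪c, x⟫ + r * ‖x‖ := by
  apply le_antisymm
  · obtain ⟨y, hy, hyx⟩ := hs x
    rw [hb, mem_closedBall, dist_eq_norm] at hy
    have h1 : ⟪y, x⟫ = ⟪c, x⟫ + ⟪y - c, x⟫ := by rw [inner_sub_left]; ring
    rw [← hyx, h1]
    have h2 := real_inner_le_norm (y - c) x
    have := norm_nonneg x
    nlinarith
  · by_cases hx : x = 0
    · obtain ⟨y, hy, hyx⟩ := hs x
      rw [hx] at hyx ⊢
      rw [← hyx]
      simp
    · have hn : 0 < ‖x‖ := norm_pos_iff.2 hx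
      have h1 : c + (r / ‖x‖) • x ∈ body h := by
        rw [hb, mem_closedBall, dist_eq_norm, add_sub_cancel_left, norm_smul,
          Real.norm_of_nonneg (by positivity), div_mul_cancel₀ _ hn.ne']
      have h2 := h1 x
      rw [inner_add_left, inner_smul_left, real_inner_self_eq_norm_sq] at h2
      simp only [conj_trivial] at h2
      have h3 : r / ‖x‖ * ‖x‖ ^ 2 = r * ‖x‖ := by field_simp
      linarith

/-- If the body given by `h` is an ellipsoid, then `h` is the support function of it. -/
theorem support_ellipsoid {h : V → ℝ} (hs : ∀ x, ∃ y ∈ body h, ⟪y, x⟫ = h x) (T : V ≃L[ℝ] V)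
    (c : V) (hb : body h = (fun x => T x + c) '' closedBall 0 1) (x : V) :
    h x = ⟪c, x⟫ + ‖(T : V →L[ℝ] V).adjoint x‖ := by
  apply le_antisymm
  · obtain ⟨y, hy, hyx⟩ := hs x
    rw [hb] at hy
    obtain ⟨z, hz, rfl⟩ := hy
    rw [mem_closedBall_zero_iff] at hz
    rw [← hyx, inner_add_left]
    have h1 : ⟪T z, x⟫ = ⟪z, (T : V →L[ℝ] V).adjoint x⟫ := by
      rw [ContinuousLinearMap.adjoint_inner_right]; rfl
    rw [h1]
    have h2 := real_inner_le_norm z ((T : V →L[ℝ] V).adjoint x)
    have := norm_nonneg ((T : V →L[ℝ] V).adjoint x)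
    nlinarith
  · set w := (T : V →L[ℝ] V).adjoint x with hw
    have key : ∀ z ∈ closedBall (0 : V) 1, ⟪z, w⟫ + ⟪c, x⟫ ≤ h x := by
      intro z hz
      have h1 : T z + c ∈ body h := by rw [hb]; exact ⟨z, hz, rfl⟩
      have h2 := h1 x
      rw [inner_add_left] at h2
      have h3 : ⟪T z, x⟫ = ⟪z, w⟫ := by
        rw [hw, ContinuousLinearMap.adjoint_inner_right]; rfl
      linarith
    by_cases hw0 : w = 0
    · have := key 0 (by simp)
      rw [hw0] at this ⊢
      simp at this ⊢
      exact this
    · have hn : 0 < ‖w‖ := norm_pos_iff.2 hw0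
      have := key ((‖w‖)⁻¹ • w) (by
        rw [mem_closedBall_zero_iff, norm_smul, norm_inv, norm_norm, inv_mul_cancel₀ hn.ne'])
      rw [inner_smul_left, real_inner_self_eq_norm_sq] at this
      simp only [conj_trivial] at this
      have h3 : ‖w‖⁻¹ * ‖w‖ ^ 2 = ‖w‖ := by field_simp
      linarith

end support

section planar

variable {V : Type*} [NormedAddCommGroup V] [InnerProductSpace ℝ V] [FiniteDimensional ℝ V]

/-- The rotation of `V` corresponding to the multiplication by `ω`. -/
noncomputable def rot (φ : ℂ ≃ₗᵢ[ℝ] V) (ω : Circle) : V ≃ₗᵢ[ℝ] V :=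
  φ.symm.trans ((rotation ω).trans φ)

theorem rot_apply (φ : ℂ ≃ₗᵢ[ℝ] V) (ω : Circle) (z : ℂ) : rot φ ω (φ z) = φ (ω * z) := by
  simp [rot, rotation_apply]

theorem fixed_zero (φ : ℂ ≃ₗᵢ[ℝ] V) {ω : Circle} (hω : (ω : ℂ).im ≠ 0) {x : V}
    (h : rot φ ω x = x) : x = 0 := by
  obtain ⟨z, rfl⟩ := φ.surjective x
  rw [rot_apply] at h
  have h1 := φ.injective h
  have h2 : ((ω : ℂ) - 1) * z = 0 := by rw [sub_mul, h1, one_mul, sub_self]
  rcases mul_eq_zero.1 h2 with h3 | h3
  · exfalso
    apply hω
    rw [sub_eq_zero.1 h3, Complex.one_im]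
  · rw [h3, map_zero]

/-- A quadratic form `‖L z‖²` invariant under a rotation of order at least three is a multiple of
`|z|²`. -/
theorem quad_inv {W : Type*} [NormedAddCommGroup W] [InnerProductSpace ℝ W] (L : ℂ →ₗ[ℝ] W)
    {ω : Circle} (hω : (ω : ℂ).im ≠ 0) (h : ∀ z : ℂ, ‖L (ω * z)‖ = ‖L z‖) (z : ℂ) :
    ‖L z‖ = ‖L 1‖ * ‖z‖ := by
  have hL : ∀ z : ℂ, L z = z.re • L 1 + z.im • L Complex.I := by
    intro z
    rw [← map_smul, ← map_smul, ← map_add]
    congr 1
    simp
  have hsq : ∀ z : ℂ, ‖L z‖ ^ 2 = z.re ^ 2 * ‖L 1‖ ^ 2 + 2 * (z.re * z.im) * ⟪L 1, L Complex.I⟫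
      + z.im ^ 2 * ‖L Complex.I‖ ^ 2 := by
    intro z
    rw [hL z, norm_add_sq_real, norm_smul, norm_smul, inner_smul_left, inner_smul_right]
    simp only [Real.norm_eq_abs, mul_pow, sq_abs, conj_trivial]
    ring
  set a := ‖L 1‖ ^ 2 with ha
  set b := ⟪L 1, L Complex.I⟫ with hb
  set d := ‖L Complex.I‖ ^ 2 with hd
  set c := (ω : ℂ).re with hc
  set s := (ω : ℂ).im with hs
  have hcs : c ^ 2 + s ^ 2 = 1 := by
    have h1 : Complex.normSq (ω : ℂ) = 1 := by
      rw [Complex.normSq_eq_norm_sq, Circle.norm_coe]; norm_num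
    rw [Complex.normSq_apply] at h1
    nlinarith
  have e1 := hsq (ω * 1)
  have e2 := hsq (ω * Complex.I)
  have e3 := hsq (ω * (1 + Complex.I))
  have e4 := hsq (1 + Complex.I)
  rw [h] at e1 e2 e3
  simp only [Complex.mul_re, Complex.mul_im, Complex.one_re, Complex.one_im, Complex.I_re,
    Complex.I_im, Complex.add_re, Complex.add_im, ← hc, ← hs] at e1 e2 e3 e4
  rw [← ha] at e1
  rw [← hd] at e2
  rw [e4] at e3
  -- the three equations
  have q1 : s * ((d - a) * s + 2 * b * c) = 0 := by nlinarith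
  have q2 : s * ((d - a) * c - 2 * b * s) = 0 := by nlinarith
  have r1 : (d - a) * s + 2 * b * c = 0 := (mul_eq_zero.1 q1).resolve_left hω
  have r2 : (d - a) * c - 2 * b * s = 0 := (mul_eq_zero.1 q2).resolve_left hω
  have hda : d = a := by nlinarith
  have hb0 : b = 0 := by nlinarith
  have h5 := hsq z
  rw [hda, hb0] at h5
  have h6 : ‖z‖ ^ 2 = z.re ^ 2 + z.im ^ 2 := by
    rw [← Complex.normSq_eq_norm_sq, Complex.normSq_apply]; ring
  have h7 : ‖L z‖ ^ 2 = (‖L 1‖ * ‖z‖) ^ 2 := by
    rw [mul_pow, h6, h5, ← ha]; ring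
  exact (sq_eq_sq₀ (norm_nonneg _) (by positivity)).1 h7

/-- A set of isometries of the plane containing a rotation of order at least three is complete. -/
theorem complete_of_rot (φ : ℂ ≃ₗᵢ[ℝ] V) {ω : Circle} (hω : (ω : ℂ).im ≠ 0) {G : Set (V ≃ᵢ V)}
    (hG : (rot φ ω).toIsometryEquiv ∈ G) : IsCompleteGroup G := by
  rintro E ⟨T, c, rfl⟩ hGE
  have hinv := hGE hG
  set N : V → ℝ := fun x => ‖T.symm x‖ with hN
  have hmem : ∀ x, x ∈ (fun x => T x + c) '' closedBall (0 : V) 1 ↔ N (x - c) ≤ 1 := by
    intro x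
    constructor
    · rintro ⟨y, hy, rfl⟩
      rw [mem_closedBall_zero_iff] at hy
      simpa [hN] using hy
    · intro hx
      refine ⟨T.symm (x - c), ?_, ?_⟩
      · rw [mem_closedBall_zero_iff]; exact hx
      · simp
  have hρ : ∀ x, N (x - c) ≤ 1 ↔ N (rot φ ω x - c) ≤ 1 := by
    intro x
    rw [← hmem, ← hmem]
    constructor
    · intro h
      rw [← hinv]
      exact ⟨x, h, rfl⟩
    · intro h
      rw [← hinv] at h
      obtain ⟨y, hy, hyx⟩ := h
      have : y = x := (rot φ ω).injective hyx
      rwa [← this]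
  have Nneg : ∀ x, N (-x) = N x := by intro x; simp [hN]
  have Nsmul : ∀ (t : ℝ) (x : V), N (t • x) = |t| * N x := by
    intro t x; simp [hN, norm_smul]
  have Npos : ∀ x, x ≠ 0 → 0 < N x := by
    intro x hx
    simp only [hN]
    rw [norm_pos_iff]
    simpa using hx
  -- the centre is fixed
  have hc : rot φ ω c = c := by
    by_contra hne
    set w := rot φ ω c - c with hw
    have hw0 : w ≠ 0 := sub_ne_zero.2 hne
    have hstep : ∀ x, N (x - c) ≤ 1 → N (x + (2 : ℝ) • w - c) ≤ 1 := by
      intro x hx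
      -- reflect in c, apply the rotation twice
      obtain ⟨y, hy⟩ := (rot φ ω).surjective x
      rw [← hy] at hx ⊢
      have h1 := (hρ y).2 hx
      have h2 : N (((2 : ℝ) • c - y) - c) ≤ 1 := by
        have : ((2 : ℝ) • c - y) - c = -(y - c) := by rw [two_smul]; abel
        rw [this, Nneg]
        exact h1
      have h3 := (hρ _).1 h2
      have h4 : N (((2 : ℝ) • c - rot φ ω ((2 : ℝ) • c - y)) - c) ≤ 1 := by
        have : ((2 : ℝ) • c - rot φ ω ((2 : ℝ) • c - y)) - c =
            -(rot φ ω ((2 : ℝ) • c - y) - c) := by rw [two_smul]; abel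
        rw [this, Nneg]
        exact h3
      have h5 : (2 : ℝ) • c - rot φ ω ((2 : ℝ) • c - y) = rot φ ω y - (2 : ℝ) • w := by
        rw [map_sub, map_smul, hw, smul_sub]; abel
      -- we get the translation by `-2 w`; use the symmetry again
      rw [h5] at h4
      have h6 : N (((2 : ℝ) • c - rot φ ω y) - c) ≤ 1 := by
        have : ((2 : ℝ) • c - rot φ ω y) - c = -(rot φ ω y - c) := by rw [two_smul]; abel
        rw [this, Nneg]
        exact hx
      obtain ⟨y', hy'⟩ := (rot φ ω).surjective ((2 : ℝ) • c - rot φ ω y)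
      rw [← hy'] at h6
      have h7 := (hρ y').2 h6
      have h8 : N (((2 : ℝ) • c - y') - c) ≤ 1 := by
        have : ((2 : ℝ) • c - y') - c = -(y' - c) := by rw [two_smul]; abel
        rw [this, Nneg]
        exact h7
      have h9 := (hρ _).1 h8
      have h10 : rot φ ω ((2 : ℝ) • c - y') = rot φ ω y + (2 : ℝ) • w := by
        rw [map_sub, map_smul, hy', hw, smul_sub]; abel
      rwa [h10] at h9
    have hNw := Npos w hw0
    have h1 : N ((c + (N w)⁻¹ • w) - c) ≤ 1 := by
      rw [add_sub_cancel_left, Nsmul, abs_of_pos (inv_pos.2 hNw), inv_mul_cancel₀ hNw.ne']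
    have h2 := hstep _ h1
    have h3 : c + (N w)⁻¹ • w + (2 : ℝ) • w - c = ((N w)⁻¹ + 2) • w := by
      rw [add_smul]; abel
    rw [h3, Nsmul, abs_of_pos (by positivity), add_mul, inv_mul_cancel₀ hNw.ne'] at h2
    linarith
  have hc0 : c = 0 := fixed_zero φ hω hc
  subst hc0
  simp only [sub_zero] at hρ hmem
  have hle : ∀ x, N (rot φ ω x) ≤ N x := by
    intro x
    by_cases hx : x = 0
    · rw [hx, map_zero]
    · have hp := Npos x hx
      have h1 : N ((N x)⁻¹ • x) ≤ 1 := by
        rw [Nsmul, abs_of_pos (inv_pos.2 hp), inv_mul_cancel₀ hp.ne']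
      have h2 := (hρ _).1 h1
      rw [map_smul, Nsmul, abs_of_pos (inv_pos.2 hp)] at h2
      calc N (rot φ ω x) = N x * ((N x)⁻¹ * N (rot φ ω x)) := by field_simp
        _ ≤ N x * 1 := by gcongr
        _ = N x := mul_one _
  have hge : ∀ x, N x ≤ N (rot φ ω x) := by
    intro x
    by_cases hx : rot φ ω x = 0
    · have : x = 0 := by simpa using hx
      rw [this, map_zero]
    · have hp := Npos _ hx
      have h1 : N (rot φ ω ((N (rot φ ω x))⁻¹ • x)) ≤ 1 := by
        rw [map_smul, Nsmul, abs_of_pos (inv_pos.2 hp), inv_mul_cancel₀ hp.ne']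
      have h2 := (hρ _).2 h1
      rw [Nsmul, abs_of_pos (inv_pos.2 hp)] at h2
      calc N x = N (rot φ ω x) * ((N (rot φ ω x))⁻¹ * N x) := by field_simp
        _ ≤ N (rot φ ω x) * 1 := by gcongr
        _ = N (rot φ ω x) := mul_one _
  have hquad := quad_inv (T.symm.toLinearMap ∘ₗ φ.toLinearEquiv.toLinearMap) hω (by
    intro z
    have h1 := le_antisymm (hle (φ z)) (hge (φ z))
    rw [rot_apply] at h1
    exact h1)
  set a := N (φ 1) with ha
  have hapos : 0 < a := Npos _ (by simp)
  refine ⟨0, a⁻¹, inv_pos.2 hapos, ?_⟩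
  ext x
  rw [hmem, mem_closedBall_zero_iff]
  obtain ⟨z, rfl⟩ := φ.surjective x
  have h1 : N (φ z) = a * ‖z‖ := hquad z
  rw [h1, φ.norm_map, inv_eq_one_div, le_div_iff₀ hapos, mul_comm]

/-- A planar set invariant under a rotation of order at least three is completely symmetric. -/
theorem completelySymmetric_of_rot [MeasurableSpace V] [BorelSpace V] (φ : ℂ ≃ₗᵢ[ℝ] V)
    {ω : Circle} (hω : (ω : ℂ).im ≠ 0) {A : Set V} (hA : rot φ ω '' A = A) :
    CompletelySymmetric A := by
  refine ⟨?_, complete_of_rot φ hω hA⟩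
  unfold centroid
  rw [setAverage_eq]
  have hpre : rot φ ω ⁻¹' A = A := by
    ext x
    constructor
    · intro hx
      rw [mem_preimage, ← hA] at hx
      obtain ⟨y, hy, hyx⟩ := hx
      rwa [← (rot φ ω).injective hyx]
    · intro hx
      rw [mem_preimage, ← hA]
      exact mem_image_of_mem _ hx
  have h1 : ∫ x in A, rot φ ω x = ∫ x in A, x := by
    have := (rot φ ω).measurePreserving.setIntegral_preimage_emb
      (rot φ ω).toHomeomorph.measurableEmbedding (fun x => x) A
    rwa [hpre] at this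
  have h2 : ∫ x in A, rot φ ω x = rot φ ω (∫ x in A, x) :=
    (rot φ ω).toContinuousLinearEquiv.integral_comp_comm (fun x : V => x)
  have h3 : ∫ x in A, x = 0 := by
    apply fixed_zero φ hω
    rw [← h2, h1]
  rw [h3, smul_zero]

/-- The set with support function `g` is invariant under a rotation if `g` is. -/
theorem rot_body (φ : ℂ ≃ₗᵢ[ℝ] V) (ω : Circle) {g : V → ℝ} (hg : ∀ x, g (rot φ ω x) = g x) :
    rot φ ω '' body g = body g := by
  ext y
  constructor
  · rintro ⟨z, hz, rfl⟩ x
    obtain ⟨x', rfl⟩ := (rot φ ω).surjective x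
    rw [(rot φ ω).inner_map_map, hg]
    exact hz x'
  · intro hy
    obtain ⟨z, rfl⟩ := (rot φ ω).surjective y
    refine ⟨z, fun x => ?_, rfl⟩
    have := hy (rot φ ω x)
    rwa [(rot φ ω).inner_map_map, hg] at this

end planar

end Pool.Agent.R758.Tomo
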